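import Pool.Agent.MVD.StmtsLoc

/-!
# Squad MVD, row EIS: inserting two places of `x`
-/

set_option autoImplicit false

namespace Pool.Agent.MVD.H10

open Pool.Agent.Helper14_MV Pool.Agent.Helper2_MV Pool.Agent.MVD

theorem eis_bw_append (R S : List ℕ) (B : ℕ → List ℕ) : Bw (R ++ S) B = Bw R B ++ Bw S B :=
  List.flatMap_append

theorem eis_bw_cons (r : ℕ) (R : List ℕ) (B : ℕ → List ℕ) :
    Bw (r :: R) B = B r ++ ([3 * r + 2] ++ Bw R B) := by
  unfold Bw
  rw [List.flatMap_cons, List.append_assoc]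

theorem eis_bw_congr (R : List ℕ) (B C : ℕ → List ℕ) (h : ∀ r ∈ R, B r = C r) :
    Bw R B = Bw R C := by
  induction R with
  | nil => rfl
  | cons r R ih =>
    rw [eis_bw_cons, eis_bw_cons, h r List.mem_cons_self,
      ih (fun q hq => h q (List.mem_cons_of_mem _ hq))]

theorem eis_bw_ins (R1 R2 : List ℕ) (r : ℕ) (W : List ℕ) (C : ℕ → List ℕ)
    (h : (R1 ++ r :: R2).Nodup) :
    Bw (R1 ++ r :: R2) (fun q => (if q = r then W else []) ++ C q) =
      Bw R1 C ++ (W ++ Bw (r :: R2) C) := by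
  have h1 := List.nodup_append.mp h
  have hR1 : r ∉ R1 := fun hr => h1.2.2 r hr r List.mem_cons_self rfl
  have hR2 : r ∉ R2 := (List.nodup_cons.mp h1.2.1).1
  rw [eis_bw_append, eis_bw_cons, eis_bw_cons]
  rw [eis_bw_congr R1 (fun q => (if q = r then W else []) ++ C q) C,
    eis_bw_congr R2 (fun q => (if q = r then W else []) ++ C q) C]
  · simp only [if_true, List.append_assoc]
  · intro q hq
    have hne : q ≠ r := fun e => hR2 (e ▸ hq)
    rw [if_neg hne, List.nil_append]
  · intro q hq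
    have hne : q ≠ r := fun e => hR1 (e ▸ hq)
    rw [if_neg hne, List.nil_append]

theorem eis_lab_nodup {P Q : List ℕ} (h : (P ++ Q).Nodup) : (lab P Q).Nodup := by
  have hinj : Function.Injective (fun e : ℕ => e + 1) := fun a b hab => by
    have h0 : a + 1 = b + 1 := hab
    omega
  have hPQ : ((P ++ Q).map (fun e => e + 1)).Nodup := h.map hinj
  rw [List.map_append] at hPQ
  unfold lab
  rw [List.nodup_append] at hPQ ⊢
  refine ⟨hPQ.1, ?_, ?_⟩
  · rw [List.nodup_cons]
    refine ⟨?_, hPQ.2.1⟩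
    intro h0
    obtain ⟨e, -, he⟩ := List.mem_map.mp h0
    omega
  · intro a ha b hb
    rcases List.mem_cons.mp hb with hb | hb
    · obtain ⟨e, -, he⟩ := List.mem_map.mp ha
      omega
    · exact hPQ.2.2 a ha b hb

theorem eis_word (x s1 s2 : ℕ) (P1 P2 P3 Q U0 V0 : List ℕ)
    (hnd : ((P1 ++ s1 :: (P2 ++ s2 :: P3)) ++ Q).Nodup) :
    ∃ U V : ℕ → List ℕ, ∀ K : List ℕ,
      EW x s1 s2 P1 P2 P3 Q (U0 ++ (K ++ V0)) =
        Bw (lab (P1 ++ (P2 ++ P3)) Q)
          (fun r => U r ++ ((if r = 0 then K else [3 * (r - 1) + 1]) ++ V r)) := by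
  have hlab : (lab (P1 ++ (P2 ++ P3)) Q).Nodup := by
    apply eis_lab_nodup
    refine hnd.sublist ?_
    apply List.Sublist.append_right
    apply List.Sublist.append_left
    refine (List.Sublist.append_left (List.sublist_cons_self s2 P3) P2).trans ?_
    exact List.sublist_cons_self s1 _
  have e0 : lab (P1 ++ (P2 ++ P3)) Q = P1.map (fun e => e + 1) ++ (P2.map (fun e => e + 1) ++
      (P3.map (fun e => e + 1) ++ 0 :: Q.map (fun e => e + 1))) := by
    unfold lab
    rw [List.map_append, List.map_append, List.append_assoc, List.append_assoc]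
  have e1 : lab (P1 ++ s1 :: (P2 ++ s2 :: P3)) Q = P1.map (fun e => e + 1) ++ (s1 + 1) ::
      (P2.map (fun e => e + 1) ++ (s2 + 1) ::
      (P3.map (fun e => e + 1) ++ 0 :: Q.map (fun e => e + 1))) := by
    unfold lab
    simp only [List.map_append, List.map_cons, List.append_assoc, List.cons_append]
  obtain ⟨r2, T3, hT3⟩ : ∃ r T, P3.map (fun e => e + 1) ++ 0 :: Q.map (fun e => e + 1) =
      r :: T := List.exists_cons_of_ne_nil (by simp)
  obtain ⟨r1, T2, hT2⟩ : ∃ r T, P2.map (fun e => e + 1) ++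
      (P3.map (fun e => e + 1) ++ 0 :: Q.map (fun e => e + 1)) =
      r :: T := List.exists_cons_of_ne_nil (by simp)
  refine ⟨fun q => (if q = r1 then [x, 3 * (s1 + 1) + 2] else []) ++
    ((if q = r2 then [x, 3 * (s2 + 1) + 2] else []) ++ (if q = 0 then U0 else [])),
    fun q => if q = 0 then V0 else [], fun K => ?_⟩
  rw [e0] at hlab ⊢
  have n1 : (P1.map (fun e => e + 1) ++ r1 :: T2).Nodup := by
    rw [← hT2]
    exact hlab
  have n2 : (P2.map (fun e => e + 1) ++ r2 :: T3).Nodup := by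
    rw [← hT3]
    exact (List.nodup_append.mp hlab).2.1
  have hr2 : r2 ∉ P1.map (fun e => e + 1) := by
    intro hr
    refine (List.nodup_append.mp hlab).2.2 r2 hr r2 ?_ rfl
    rw [hT3]
    exact List.mem_append_right _ List.mem_cons_self
  -- the right hand side
  have rhs : Bw (P1.map (fun e => e + 1) ++ (P2.map (fun e => e + 1) ++
      (P3.map (fun e => e + 1) ++ 0 :: Q.map (fun e => e + 1))))
      (fun r => ((if r = r1 then [x, 3 * (s1 + 1) + 2] else []) ++
        ((if r = r2 then [x, 3 * (s2 + 1) + 2] else []) ++ (if r = 0 then U0 else []))) ++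
        ((if r = 0 then K else [3 * (r - 1) + 1]) ++ (if r = 0 then V0 else []))) =
      Bw (P1.map (fun e => e + 1)) (fun r => (if r = 0 then U0 else []) ++
        ((if r = 0 then K else [3 * (r - 1) + 1]) ++ (if r = 0 then V0 else []))) ++
      ([x, 3 * (s1 + 1) + 2] ++ (Bw (P2.map (fun e => e + 1)) (fun r =>
        (if r = 0 then U0 else []) ++ ((if r = 0 then K else [3 * (r - 1) + 1]) ++
        (if r = 0 then V0 else []))) ++ ([x, 3 * (s2 + 1) + 2] ++
      Bw (P3.map (fun e => e + 1) ++ 0 :: Q.map (fun e => e + 1)) (fun r =>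
        (if r = 0 then U0 else []) ++ ((if r = 0 then K else [3 * (r - 1) + 1]) ++
        (if r = 0 then V0 else [])))))) := by
    simp only [List.append_assoc]
    rw [hT2, eis_bw_ins _ _ _ _ (fun r => (if r = r2 then [x, 3 * (s2 + 1) + 2] else []) ++
      ((if r = 0 then U0 else []) ++ ((if r = 0 then K else [3 * (r - 1) + 1]) ++
        (if r = 0 then V0 else [])))) n1, ← hT2, hT3,
      eis_bw_ins _ _ _ _ (fun r => (if r = 0 then U0 else []) ++
        ((if r = 0 then K else [3 * (r - 1) + 1]) ++ (if r = 0 then V0 else []))) n2]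
    congr 1
    apply eis_bw_congr
    intro q hq
    have hne : q ≠ r2 := fun e => hr2 (e ▸ hq)
    rw [if_neg hne, List.nil_append]
  rw [rhs]
  unfold EW Wk
  rw [e1, eis_bw_append, eis_bw_cons, eis_bw_append, eis_bw_cons]
  have hk1 : kx x s1 s2 s1 = x := by
    unfold kx
    rw [if_pos (Or.inl rfl)]
  have hk2 : kx x s1 s2 s2 = x := by
    unfold kx
    rw [if_pos (Or.inr rfl)]
  have hnd1 : ∀ i, i ∈ P1 ++ (P2 ++ (P3 ++ Q)) → i ≠ s1 ∧ i ≠ s2 := by
    intro i hi
    have hperm : ((P1 ++ s1 :: (P2 ++ s2 :: P3)) ++ Q).Perm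
        (s1 :: s2 :: (P1 ++ (P2 ++ (P3 ++ Q)))) := by
      have q1 : ((P1 ++ s1 :: (P2 ++ s2 :: P3)) ++ Q).Perm
          (s1 :: (P1 ++ (P2 ++ s2 :: (P3 ++ Q)))) := by
        rw [List.append_assoc, List.cons_append, List.append_assoc, List.cons_append]
        exact List.perm_middle
      have q2 : (P1 ++ (P2 ++ s2 :: (P3 ++ Q))).Perm (s2 :: (P1 ++ (P2 ++ (P3 ++ Q)))) := by
        rw [← List.append_assoc, ← List.append_assoc]
        exact List.perm_middle
      exact q1.trans (q2.cons s1)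
    have hn := hperm.nodup_iff.mp hnd
    rw [List.nodup_cons, List.nodup_cons] at hn
    refine ⟨?_, ?_⟩
    · intro e
      exact hn.1 (List.mem_cons_of_mem _ (e ▸ hi))
    · intro e
      exact hn.2.1 (e ▸ hi)
  have hG : ∀ r, (r = 0 ∨ ∃ i ∈ P1 ++ (P2 ++ (P3 ++ Q)), r = i + 1) →
      (if r = 0 then U0 ++ (K ++ V0) else [kx x s1 s2 (r - 1)]) =
        (if r = 0 then U0 else []) ++ ((if r = 0 then K else [3 * (r - 1) + 1]) ++
        (if r = 0 then V0 else [])) := by
    intro r hr
    by_cases h0 : r = 0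
    · rw [if_pos h0, if_pos h0, if_pos h0, if_pos h0]
    · rw [if_neg h0, if_neg h0, if_neg h0, if_neg h0, List.nil_append, List.append_nil]
      rcases hr with hr | ⟨i, hi, rfl⟩
      · exact absurd hr h0
      · obtain ⟨h1, h2⟩ := hnd1 i hi
        unfold kx
        rw [Nat.add_sub_cancel, if_neg (fun h => h.elim h1 h2)]
  rw [eis_bw_congr (P1.map (fun e => e + 1)) _ _ (fun r hr => hG r ?_),
    eis_bw_congr (P2.map (fun e => e + 1)) _ _ (fun r hr => hG r ?_),
    eis_bw_congr (P3.map (fun e => e + 1) ++ 0 :: Q.map (fun e => e + 1)) _ _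
      (fun r hr => hG r ?_), if_neg (Nat.succ_ne_zero s1), if_neg (Nat.succ_ne_zero s2),
    Nat.add_sub_cancel, Nat.add_sub_cancel, hk1, hk2]
  · rfl
  · rcases List.mem_append.mp hr with hr | hr
    · obtain ⟨i, hi, he⟩ := List.mem_map.mp hr
      exact Or.inr ⟨i, List.mem_append_right _ (List.mem_append_right _
        (List.mem_append_left _ hi)), he.symm⟩
    · rcases List.mem_cons.mp hr with hr | hr
      · exact Or.inl hr
      · obtain ⟨i, hi, he⟩ := List.mem_map.mp hr
        exact Or.inr ⟨i, List.mem_append_right _ (List.mem_append_right _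
          (List.mem_append_right _ hi)), he.symm⟩
  · obtain ⟨i, hi, he⟩ := List.mem_map.mp hr
    exact Or.inr ⟨i, List.mem_append_right _ (List.mem_append_left _ hi), he.symm⟩
  · obtain ⟨i, hi, he⟩ := List.mem_map.mp hr
    exact Or.inr ⟨i, List.mem_append_left _ hi, he.symm⟩

theorem eis (irl : IrlStmt) : EisStmt := by
  intro β x s1 s2 P1 P2 P3 Q K K' U V hnd hK hK' h
  obtain ⟨U', V', hUV⟩ := eis_word x s1 s2 P1 P2 P3 Q U V hnd
  rw [hUV K, hUV K']
  have hlab : (lab (P1 ++ (P2 ++ P3)) Q).Nodup := by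
    apply eis_lab_nodup
    refine hnd.sublist ?_
    apply List.Sublist.append_right
    apply List.Sublist.append_left
    refine (List.Sublist.append_left (List.sublist_cons_self s2 P3) P2).trans ?_
    exact List.sublist_cons_self s1 _
  have hsf : ∀ L : List ℕ, SFr L → ∀ r ∈ lab (P1 ++ (P2 ++ P3)) Q,
      SFr (if r = 0 then L else [3 * (r - 1) + 1]) := by
    intro L hL r _
    by_cases h0 : r = 0
    · rw [if_pos h0]
      exact hL
    · rw [if_neg h0]
      intro c hc
      rw [List.mem_singleton] at hc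
      omega
  have hnil : SFr [] := by
    intro c hc
    simp at hc
  have h2 := irl β (lab (P1 ++ (P2 ++ P3)) Q) (fun r => if r = 0 then K else [3 * (r - 1) + 1])
    (fun r => if r = 0 then K' else [3 * (r - 1) + 1]) U' V' [] [] [] [] hlab (hsf K hK)
    (hsf K' hK') hnil hnil (by
      rw [List.append_nil, List.append_nil]
      exact h)
  simpa only [List.append_nil] using h2

end Pool.Agent.MVD.H10
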