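import Pool.Agent.MVD.Stmts

/-!
# MVD row INW: words as substitution instances of words with isolated places
-/

set_option autoImplicit false

namespace Pool.Agent.MVD.H10

open Pool.Agent.Helper14_MV Pool.Agent.Helper2_MV

/-- the skeleton lemma -/
theorem skel (f : ℕ → ℕ) : ∀ (p S : List ℕ), S.Nodup → (∀ e ∈ S, f e ∈ p) →
    (∀ e ∈ S, ∀ e' ∈ S, f e = f e' → e = e') →
    ∃ (P g0 : List ℕ) (G : ℕ → List ℕ), P.Perm S ∧
      p = g0 ++ P.flatMap (fun e => f e :: G e) := by
  intro p
  induction p with
  | nil =>
    intro S _ h _
    refine ⟨[], [], fun _ => [], ?_, by simp⟩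
    have : S = [] := by
      rw [List.eq_nil_iff_forall_not_mem]
      intro a ha
      have := h a ha
      simp at this
    rw [this]
  | cons c p ih =>
    intro S hn h hi
    by_cases hc : ∃ e ∈ S, f e = c
    · obtain ⟨e, he, hec⟩ := hc
      obtain ⟨P, g0, G, hP, hp⟩ := ih (S.erase e) (hn.erase e) (by
          intro e' he'
          have h1 := (hn.mem_erase_iff).mp he'
          rcases List.mem_cons.mp (h e' h1.2) with h2 | h2
          · exact absurd (hi e' h1.2 e he (h2.trans hec.symm)) h1.1
          · exact h2) (by
          intro a ha b hb hab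
          exact hi a (List.mem_of_mem_erase ha) b (List.mem_of_mem_erase hb) hab)
      refine ⟨e :: P, [], fun x => if x = e then g0 else G x, ?_, ?_⟩
      · exact (hP.cons e).trans (List.perm_cons_erase he).symm
      · rw [List.flatMap_cons, List.nil_append]
        beta_reduce
        rw [if_pos rfl, hec, List.cons_append]
        congr 1
        rw [hp]
        congr 1
        apply List.flatMap_congr
        intro x hx
        have hxe : x ≠ e := ((hn.mem_erase_iff).mp (hP.mem_iff.mp hx)).1
        rw [if_neg hxe]
    · obtain ⟨P, g0, G, hP, hp⟩ := ih S hn (by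
          intro e' he'
          rcases List.mem_cons.mp (h e' he') with h2 | h2
          · exact absurd ⟨e', he', h2⟩ hc
          · exact h2) hi
      refine ⟨P, c :: g0, G, hP, ?_⟩
      rw [List.cons_append]
      congr 1

theorem inw : InwStmt := by
  intro p q D y hD hpq
  classical
  obtain ⟨f, hf⟩ : ∃ f : ℕ → ℕ, ∀ e (he : e < D.length), f e = D[e] :=
    ⟨fun e => D.getD e 0, by
      intro e he
      exact List.getD_eq_getElem D 0 he⟩
  have hinj : ∀ e < D.length, ∀ e' < D.length, f e = f e' → e = e' := by
    intro e he e' he' h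
    rw [hf e he, hf e' he'] at h
    exact (hD.getElem_inj_iff).mp h
  have hS1 : ∀ e ∈ (List.range D.length).filter (fun e => decide (f e ∈ p)),
      e < D.length ∧ f e ∈ p := by
    intro e he
    rw [List.mem_filter, List.mem_range, decide_eq_true_eq] at he
    exact he
  have hS2 : ∀ e ∈ (List.range D.length).filter (fun e => !decide (f e ∈ p)),
      e < D.length ∧ f e ∉ p := by
    intro e he
    rw [List.mem_filter, List.mem_range, Bool.not_eq_true', decide_eq_false_iff_not] at he
    exact he
  obtain ⟨P, g0, G, hP, hp⟩ := skel f p _ ((List.nodup_range (n := D.length)).filter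
    (fun e => decide (f e ∈ p))) (fun e he => (hS1 e he).2)
    (fun e he e' he' h => hinj e (hS1 e he).1 e' (hS1 e' he').1 h)
  obtain ⟨Q, g0', G', hQ, hq⟩ := skel f q _ ((List.nodup_range (n := D.length)).filter
    (fun e => !decide (f e ∈ p))) (fun e he => by
      have h1 := hS2 e he
      have h2 : f e ∈ D := by rw [hf e h1.1]; exact List.getElem_mem _
      rcases hpq _ h2 with h3 | h3
      · exact absurd h3 h1.2
      · exact h3)
    (fun e he e' he' h => hinj e (hS2 e he).1 e' (hS2 e' he').1 h)
  have hPp : ∀ e ∈ P, f e ∈ p := fun e he => (hS1 e (hP.mem_iff.mp he)).2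
  have hQp : ∀ e ∈ Q, f e ∉ p := fun e he => (hS2 e (hQ.mem_iff.mp he)).2
  refine ⟨P, Q, fun c => if c = 0 then [y] else if c = 2 then g0' else
    if c % 3 = 1 then [f (c / 3)] else
      if f (c / 3 - 1) ∈ p then G (c / 3 - 1) else G' (c / 3 - 1), g0, ?_, ?_, by simp, ?_⟩
  · exact (hP.append hQ).trans (List.filter_append_perm _ _)
  · intro L
    have key : ∀ (T : List ℕ) (K : ℕ → List ℕ), (∀ e ∈ T, (if f e ∈ p then G e else G' e) = K e) →
        ((T.map (fun e => e + 1)).flatMap
          (fun r => (if r = 0 then L else [3 * (r - 1) + 1]) ++ [3 * r + 2])).flatMap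
          (fun c => if c = 0 then [y] else if c = 2 then g0' else
            if c % 3 = 1 then [f (c / 3)] else
              if f (c / 3 - 1) ∈ p then G (c / 3 - 1) else G' (c / 3 - 1)) =
          T.flatMap (fun e => f e :: K e) := by
      intro T K hK
      rw [List.flatMap_map, List.flatMap_assoc]
      apply List.flatMap_congr
      intro e he
      rw [if_neg (by omega), List.flatMap_append, List.flatMap_singleton, List.flatMap_singleton,
        if_neg (by omega), if_neg (by omega), if_pos (by omega), if_neg (by omega),
        if_neg (by omega), if_neg (by omega)]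
      have e1 : (3 * (e + 1 - 1) + 1) / 3 = e := by omega
      have e2 : (3 * (e + 1) + 2) / 3 - 1 = e := by omega
      rw [e1, e2, hK e he]
      rfl
    unfold Wm Bw
    rw [List.flatMap_append, List.flatMap_append, List.flatMap_cons]
    beta_reduce
    rw [if_pos rfl, List.flatMap_append, List.flatMap_append,
      key P G (fun e he => if_pos (hPp e he)), key Q G' (fun e he => if_neg (hQp e he)),
      List.flatMap_singleton, if_neg (by norm_num), if_pos (by norm_num)]
    rw [List.append_assoc _ g0', ← hq, ← List.append_assoc g0, ← hp]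
  · intro e he
    simp only
    rw [if_neg (by omega), if_neg (by omega), if_pos (by omega)]
    have e1 : (3 * e + 1) / 3 = e := by omega
    rw [e1, hf e he]

end Pool.Agent.MVD.H10
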