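import Pool.Agent.MVD.Stmts

/-!
# MVD row LIN: linear words are isoterms
-/

set_option autoImplicit false

namespace Pool.Agent.MVD.H10

open Pool.Agent.Helper14_MV Pool.Agent.Helper2_MV

theorem filter_pair {a c : ℕ} : ∀ (m : List ℕ), m.Nodup → a ∉ m → c ∈ m →
    m.filter (fun i => decide (i = a ∨ i = c)) = [c] := by
  intro m
  induction m with
  | nil => intro _ _ h; simp at h
  | cons b m ih =>
    intro hn ha hc
    rw [List.nodup_cons] at hn
    rw [List.mem_cons, not_or] at ha
    rcases List.mem_cons.mp hc with h | h
    · subst h
      rw [List.filter_cons_of_pos (by simp)]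
      congr 1
      rw [List.filter_eq_nil_iff]
      intro x hx hx2
      rw [decide_eq_true_eq] at hx2
      rcases hx2 with h2 | h2
      · exact ha.2 (h2 ▸ hx)
      · exact hn.1 (h2 ▸ hx)
    · have hbc : b ≠ c := fun e => hn.1 (e ▸ h)
      rw [List.filter_cons_of_neg (by simp [hbc, Ne.symm ha.1])]
      exact ih hn.2 ha.2 h

theorem lin : LinStmt := by
  intro β H l
  induction l with
  | nil => intro l' _ h; exact iso_nil H h
  | cons a m ih =>
    intro l' hn h
    have hn' := List.nodup_cons.mp hn
    cases l' with
    | nil =>
      have := iso_nil H h.symm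
      simp at this
    | cons c m' =>
      have hc : c = a := by
        by_contra hne
        have hmem : c ∈ a :: m := by
          by_contra hcon
          exact h.content H hcon (by simp)
        have hcm : c ∈ m := by
          rcases List.mem_cons.mp hmem with h1 | h1
          · exact absurd h1 hne
          · exact h1
        have h1 := h.filter (fun i => decide (i = a ∨ i = c))
        have e1 : (a :: m).filter (fun i => decide (i = a ∨ i = c)) = [a, c] := by
          rw [List.filter_cons_of_pos (by simp), filter_pair m hn'.2 hn'.1 hcm]
        rw [e1] at h1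
        have h2 := iso_ab H (Ne.symm hne) h1
        rw [List.filter_cons_of_pos (by simp)] at h2
        exact hne (List.cons.inj h2).1
      subst hc
      have h1 := h.filter (fun i => decide (i = c))
      have e1 : (c :: m).filter (fun i => decide (i = c)) = [c] := by
        rw [List.filter_cons_of_pos (by simp)]
        congr 1
        rw [List.filter_eq_nil_iff]
        intro x hx hx2
        rw [decide_eq_true_eq] at hx2
        exact hn'.1 (hx2 ▸ hx)
      rw [e1] at h1
      have h2 := iso_ab H (a := c) (b := c + 1) (by omega) (h1.append (RR.refl [c + 1]))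
      have h3 : (c :: m').filter (fun i => decide (i = c)) ++ [c + 1] = [c] ++ [c + 1] := h2
      have h4 := List.append_cancel_right h3
      rw [List.filter_cons_of_pos (by simp)] at h4
      have h5 : m'.filter (fun i => decide (i = c)) = [] := (List.cons.inj h4).2
      rw [List.filter_eq_nil_iff] at h5
      have h6 := h.filter (fun i => decide (i ≠ c))
      have e2 : ∀ k : List ℕ, c ∉ k → (c :: k).filter (fun i => decide (i ≠ c)) = k := by
        intro k hk
        rw [List.filter_cons_of_neg (by simp), List.filter_eq_self]
        intro x hx
        rw [decide_eq_true_eq]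
        exact fun e => hk (e ▸ hx)
      rw [e2 m hn'.1, e2 m' (fun hx => h5 c hx (by simp))] at h6
      rw [ih m' hn'.2 h6]

end Pool.Agent.MVD.H10
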