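import Pool.Agent.MVD.Stmts

/-!
# MVD row PN2: Lemma N2 (no y-rigid word)
-/

set_option autoImplicit false

namespace Pool.Agent.MVD.H10

open Pool.Agent.Helper14_MV Pool.Agent.Helper2_MV

/-- the parts of the word with isolated places -/
theorem wm_eq (P Q L : List ℕ) : Wm P Q L =
    P.flatMap (fun e => [3 * e + 1, 3 * (e + 1) + 2]) ++
      (L ++ 2 :: Q.flatMap (fun e => [3 * e + 1, 3 * (e + 1) + 2])) := by
  have key : ∀ T : List ℕ, (T.map (fun e => e + 1)).flatMap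
      (fun r => (if r = 0 then L else [3 * (r - 1) + 1]) ++ [3 * r + 2]) =
      T.flatMap (fun e => [3 * e + 1, 3 * (e + 1) + 2]) := by
    intro T
    rw [List.flatMap_map]
    apply List.flatMap_congr
    intro e _
    rw [if_neg (by omega), Nat.add_sub_cancel]
    rfl
  unfold Wm Bw
  rw [List.flatMap_append, List.flatMap_cons]
  beta_reduce
  rw [key, key, if_pos rfl, List.append_assoc]
  rfl

theorem wm_inj {P Q L L' : List ℕ} (h : Wm P Q L = Wm P Q L') : L = L' := by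
  rw [wm_eq, wm_eq] at h
  exact List.append_cancel_right (List.append_cancel_left h)

/-- the places of the letters `y` determine the permutation -/
theorem ss_inj {β : FIC} {P Q : List ℕ} {m : ℕ} {g g' : Equiv.Perm (Fin 4)} {w : List ℕ}
    (h : SS β P Q m g w) (h' : SS β P Q m g' w) : g = g' := by
  obtain ⟨L, hw, hL, hi⟩ := h
  obtain ⟨L', hw', hL', hi'⟩ := h'
  have hLL : L = L' := wm_inj (hw.symm.trans hw')
  subst hLL
  ext j
  have h1 : ∀ k < 5, (k = j.val ∨ k = j.val + 1) ↔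
      (k = (g'.symm (g j)).val ∨ k = (g'.symm (g j)).val + 1) := by
    intro k hk
    rw [← hi j k hk, ← hi' (g'.symm (g j)) k hk, Equiv.apply_symm_apply]
  have h2 : j.val = (g'.symm (g j)).val := by
    have a1 := (h1 j.val (by omega)).1 (Or.inl rfl)
    have a2 := (h1 (j.val + 1) (by omega)).1 (Or.inr rfl)
    omega
  have h3 : j = g'.symm (g j) := Fin.ext h2
  have h4 : g' j = g j := by
    conv_lhs => rw [h3]
    rw [Equiv.apply_symm_apply]
  rw [h4]

/-- the words in the sets of a coset -/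
def PPn (β : FIC) (P Q : List ℕ) (m : ℕ) (T : List (Equiv.Perm (Fin 4)))
    (g : Equiv.Perm (Fin 4)) (w : Word) : Prop :=
  ∃ k ∈ T, SS β P Q m (g * k) w.toList

/-- the largest fully invariant congruence which keeps all these sets -/
def TH (β : FIC) (P Q : List ℕ) (m : ℕ) (T : List (Equiv.Perm (Fin 4))) : FIC where
  r := fun u v => ∀ g : Equiv.Perm (Fin 4), (gam (PPn β P Q m T g)).r u v
  refl := fun _ _ => FIC.refl _ _
  symm := fun h g => FIC.symm _ (h g)
  trans := fun h h' g => FIC.trans _ (h g) (h' g)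
  mul := fun h h' g => FIC.mul _ (h g) (h' g)
  sub := fun φ _ _ h g => FIC.sub _ φ (h g)

theorem TH.keep {β : FIC} {P Q : List ℕ} {m : ℕ} {T : List (Equiv.Perm (Fin 4))} {u v : Word}
    (h : (TH β P Q m T).r u v) (g : Equiv.Perm (Fin 4)) :
    PPn β P Q m T g u ↔ PPn β P Q m T g v := gam_self (h g)

theorem le_TH {β : FIC} {P Q : List ℕ} {m : ℕ} (T : List (Equiv.Perm (Fin 4)))
    (hS : ∀ (g : Equiv.Perm (Fin 4)) (w w' : List ℕ), SS β P Q m g w → RR β w w' →
      SS β P Q m g w') : β ≤ TH β P Q m T := by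
  have key : ∀ (w w' : Word) (g : Equiv.Perm (Fin 4)), β.r w w' → PPn β P Q m T g w →
      PPn β P Q m T g w' := by
    intro w w' g hw hP
    obtain ⟨k, hk, hs⟩ := hP
    exact ⟨k, hk, hS _ _ _ hs hw⟩
  intro u v huv g φ a b
  have h3 : β.r (a * φ u * b) (a * φ v * b) := β.mul (β.mul (β.refl a) (β.sub φ huv)) (β.refl b)
  exact ⟨key _ _ _ h3, key _ _ _ (β.symm h3)⟩

/-- without the letters `y` the words do not depend on the permutation -/
theorem pw_flat {P Q : List ℕ} {m : ℕ} {φ : ℕ → List ℕ} (h : ∀ j : Fin 4, φ (3 * j.val) = [])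
    (g g' : Equiv.Perm (Fin 4)) :
    (pw P Q m g).flatMap φ = (pw P Q m g').flatMap φ := by
  have key : ∀ g : Equiv.Perm (Fin 4), (Lg m g).flatMap φ = (cc m 0).flatMap φ ++
      ((cc m 1).flatMap φ ++ ((cc m 2).flatMap φ ++ ((cc m 3).flatMap φ ++
        (cc m 4).flatMap φ))) := by
    intro g
    unfold Lg
    simp only [List.flatMap_append, List.flatMap_cons, List.flatMap_nil, h, List.nil_append,
      List.append_nil, List.append_assoc]
  unfold pw
  rw [wm_eq, wm_eq, List.flatMap_append, List.flatMap_append, List.flatMap_append,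
    List.flatMap_append, key, key]

theorem pw_rel {β : FIC} {P Q : List ℕ} {m : ℕ} {T : List (Equiv.Perm (Fin 4))}
    (hP : ∀ g : Equiv.Perm (Fin 4), SS β P Q m g (pw P Q m g))
    (hK : ∀ (g h : Equiv.Perm (Fin 4)) (φ : ℕ → List ℕ) (M N : List ℕ),
      SS β P Q m h (M ++ ((pw P Q m g).flatMap φ ++ N)) →
      (∀ j : Fin 4, φ (3 * j.val) = []) ∨
        ∀ s : Equiv.Perm (Fin 4),
          M ++ ((pw P Q m (g * s)).flatMap φ ++ N) = pw P Q m (h * s))
    (hT : ∀ x ∈ T, ∀ y ∈ T, x * y ∈ T) (g s : Equiv.Perm (Fin 4)) (hs : s ∈ T)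
    (hs' : s⁻¹ ∈ T) :
    RR (TH β P Q m T) (pw P Q m g) (pw P Q m (g * s)) := by
  have key : ∀ (g s g0 : Equiv.Perm (Fin 4)) (φ : Word →* Word) (a b : Word), s ∈ T →
      PPn β P Q m T g0 (a * φ (FreeMonoid.ofList (pw P Q m g)) * b) →
      PPn β P Q m T g0 (a * φ (FreeMonoid.ofList (pw P Q m (g * s))) * b) := by
    intro g s g0 φ a b hs hPP
    obtain ⟨k, hk, hss⟩ := hPP
    have e : ∀ t : List ℕ, (a * φ (FreeMonoid.ofList t) * b).toList =
        a.toList ++ (t.flatMap (fun i => (φ (FreeMonoid.of i)).toList) ++ b.toList) := by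
      intro t
      rw [FreeMonoid.toList_mul, FreeMonoid.toList_mul, toList_hom, List.append_assoc]
      rfl
    rw [e] at hss
    rcases hK g (g0 * k) _ _ _ hss with h1 | h1
    · refine ⟨k, hk, ?_⟩
      rw [e, pw_flat h1 (g * s) g]
      exact hss
    · refine ⟨k * s, hT k hk s hs, ?_⟩
      rw [e, h1 s, ← mul_assoc]
      exact hP _
  intro g0 φ a b
  constructor
  · exact key g s g0 φ a b hs
  · intro h
    have h1 := key (g * s) s⁻¹ g0 φ a b hs' h
    rwa [mul_inv_cancel_right] at h1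

/-- `(0 1)(2 3)` -/
def ga : Equiv.Perm (Fin 4) := Equiv.swap 0 1 * Equiv.swap 2 3
/-- `(0 2)(1 3)` -/
def gb : Equiv.Perm (Fin 4) := Equiv.swap 0 2 * Equiv.swap 1 3
/-- a cycle of length three -/
def gc : Equiv.Perm (Fin 4) := Equiv.swap 0 1 * Equiv.swap 1 2
def T1 : List (Equiv.Perm (Fin 4)) := [1, ga]
def T2 : List (Equiv.Perm (Fin 4)) := [1, ga, gb, ga * gb]
def TK : List (Equiv.Perm (Fin 4)) := [1, gc, gc * gc]

theorem T1_mul : ∀ x ∈ T1, ∀ y ∈ T1, x * y ∈ T1 := by decide +kernel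
theorem T2_mul : ∀ x ∈ T2, ∀ y ∈ T2, x * y ∈ T2 := by decide +kernel
theorem TK_mul : ∀ x ∈ TK, ∀ y ∈ TK, x * y ∈ TK := by decide +kernel
theorem T1_sub : ∀ x ∈ T1, x ∈ T2 := by decide +kernel
theorem T1_inv : ∀ x ∈ T1, x⁻¹ ∈ T1 := by decide +kernel
theorem T2_inv : ∀ x ∈ T2, x⁻¹ ∈ T2 := by decide +kernel
theorem TK_inv : ∀ x ∈ TK, x⁻¹ ∈ TK := by decide +kernel
theorem T_int : ∀ x ∈ TK, x ∈ T2 → x = 1 := by decide +kernel
theorem gs_T2 : gc * ga * gc⁻¹ ∈ T2 := by decide +kernel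
theorem gs_T1 : gc * ga * gc⁻¹ ∉ T1 := by decide +kernel
theorem gc_TK : gc ∈ TK := by decide +kernel
theorem ga_T1 : ga ∈ T1 := by decide +kernel

theorem pn2 (hShp : ShpStmt) (hPws : PwsStmt) (hKey : KeyStmt) (_hUni : UniStmt) : Pn2Stmt := by
  intro β hm H2 H3 P Q m h1m hPQ
  by_contra hcon
  have hHH : HH β P Q m := by
    intro w' hw'
    by_contra hn
    exact hcon ⟨w', hw', hn⟩
  have hS := hShp β H2 H3 P Q m h1m hPQ hHH
  have hP := hPws β H2 H3 P Q m h1m hPQ hHH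
  have hK := hKey β H2 H3 P Q m h1m hPQ hHH
  have hle : TH β P Q m T1 ≤ TH β P Q m T2 := by
    have key : ∀ u v : Word, (∀ (g : Equiv.Perm (Fin 4)), PPn β P Q m T1 g u ↔
        PPn β P Q m T1 g v) → ∀ g, PPn β P Q m T2 g u → PPn β P Q m T2 g v := by
      intro u v h g hu
      obtain ⟨k, hk, hs⟩ := hu
      have h1 : PPn β P Q m T1 (g * k) u := ⟨1, by decide +kernel, by rw [mul_one]; exact hs⟩
      obtain ⟨k', hk', hs'⟩ := (h (g * k)).1 h1
      exact ⟨k * k', T2_mul k hk k' (T1_sub k' hk'), by rw [← mul_assoc]; exact hs'⟩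
    intro u v h g φ a b
    exact ⟨key _ _ (fun g' => h g' φ a b) g, key _ _ (fun g' => (h g' φ a b).symm) g⟩
  have r1 : RR (TH β P Q m TK) (pw P Q m 1) (pw P Q m gc) := by
    have := pw_rel hP hK TK_mul 1 gc gc_TK (TK_inv _ gc_TK)
    rwa [one_mul] at this
  have r2 : RR (TH β P Q m T1) (pw P Q m gc) (pw P Q m (gc * ga)) :=
    pw_rel hP hK T1_mul gc ga ga_T1 (T1_inv _ ga_T1)
  have r3 : RR (TH β P Q m TK) (pw P Q m (gc * ga)) (pw P Q m (gc * ga * gc⁻¹)) :=
    pw_rel hP hK TK_mul (gc * ga) gc⁻¹ (TK_inv _ gc_TK) (by rw [inv_inv]; exact gc_TK)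
  have r4 : RR (TH β P Q m T2) (pw P Q m 1) (pw P Q m (gc * ga * gc⁻¹)) := by
    have := pw_rel hP hK T2_mul 1 (gc * ga * gc⁻¹) gs_T2 (T2_inv _ gs_T2)
    rwa [one_mul] at this
  have hsup : (FIC.sup (TH β P Q m T1) (TH β P Q m TK)).r (FreeMonoid.ofList (pw P Q m 1))
      (FreeMonoid.ofList (pw P Q m (gc * ga * gc⁻¹))) := by
    have a1 := FIC.le_sup_right (TH β P Q m T1) (TH β P Q m TK) _ _ r1
    have a2 := FIC.le_sup_left (TH β P Q m T1) (TH β P Q m TK) _ _ r2
    have a3 := FIC.le_sup_right (TH β P Q m T1) (TH β P Q m TK) _ _ r3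
    exact FIC.trans _ (FIC.trans _ a1 a2) a3
  have hfin := hm (TH β P Q m T1) (TH β P Q m TK) (TH β P Q m T2)
    (le_TH T1 hS) (le_TH TK hS) (le_TH T2 hS) hle _ _ hsup r4
  have hinv : ∀ w w' : Word, (FIC.sup (TH β P Q m T1)
      (FIC.inf (TH β P Q m TK) (TH β P Q m T2))).r w w' →
      PPn β P Q m T1 1 w → PPn β P Q m T1 1 w' := by
    intro w w' h
    induction h with
    | refl => exact id
    | tail _ h3 ih =>
      intro hw
      have hw' := ih hw
      rcases h3 with h3 | h3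
      · exact (TH.keep h3 1).1 hw'
      · obtain ⟨h3s, h3t⟩ := h3
        obtain ⟨k, hk, hs⟩ := hw'
        obtain ⟨k1, hk1, hs1⟩ := (TH.keep h3s (1 * k)).1 ⟨1, by decide +kernel, by
          rw [mul_one]; exact hs⟩
        obtain ⟨k2, hk2, hs2⟩ := (TH.keep h3t (1 * k)).1 ⟨1, by decide +kernel, by
          rw [mul_one]; exact hs⟩
        have e1 : k1 = k2 := mul_left_cancel (ss_inj hs1 hs2)
        have e2 : k1 = 1 := T_int k1 hk1 (by rw [e1]; exact hk2)
        rw [e2, mul_one] at hs1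
        exact ⟨k, hk, hs1⟩
  obtain ⟨k, hk, hs⟩ := hinv _ _ hfin ⟨1, by decide +kernel, by rw [mul_one]; exact hP 1⟩
  have e := ss_inj hs (hP (gc * ga * gc⁻¹))
  rw [one_mul] at e
  exact gs_T1 (e ▸ hk)

end Pool.Agent.MVD.H10
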